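import Pool.Agent.Helper19.PU.Defs

/-! Project PU, piece PU-8: continuity at `μ = 0`. -/

open MeasureTheory Set Metric Filter Module
open scoped NNReal Topology RealInnerProductSpace ENNReal Real ContDiff Manifold

namespace Pool.Agent.Helper19.PU

variable {E : Type*} [NormedAddCommGroup E] [InnerProductSpace ℝ E]

private theorem p8_smulRight {f : ℝ → E →L[ℝ] ℝ} {g : ℝ → E} (hf : Continuous f)
    (hg : Continuous g) : Continuous fun μ => (f μ).smulRight (g μ) :=
  ((ContinuousLinearMap.smulRightL ℝ E E).continuous.comp hf).clm_apply hg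

private theorem p8_Dm (a x : E) : Continuous fun μ : ℝ => Dm a μ x := by
  unfold Dm
  fun_prop

private theorem p8_Nm (J : E →L[ℝ] E) (a x : E) : Continuous fun μ : ℝ => Nm J a μ x := by
  unfold Nm
  fun_prop

private theorem p8_dN (J : E →L[ℝ] E) (a x : E) : Continuous fun μ : ℝ => dN J a μ x := by
  unfold dN
  refine ((Continuous.add (p8_smulRight (by fun_prop) (by fun_prop)) (by fun_prop)).sub
    (p8_smulRight (by fun_prop) (by fun_prop))).sub (by fun_prop)

private theorem p8_ne {a x : E} (ha : ‖a‖ = 1) (hx : ‖x‖ = 1) (hxa : x ≠ -a) :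
    Dm a 0 x ≠ 0 := by
  intro h
  apply hxa
  have h1 : ⟪a, x⟫ = -1 := by
    unfold Dm at h
    linarith
  have h2 : ‖x + a‖ ^ 2 = 0 := by
    rw [norm_add_sq_real, ha, hx, real_inner_comm, h1]
    norm_num
  have h3 : x + a = 0 := by
    rw [← norm_eq_zero]
    exact pow_eq_zero_iff (two_ne_zero) |>.1 h2
  exact eq_neg_of_add_eq_zero_left h3

theorem tendsto_Tm (J : E →L[ℝ] E) {a x : E} (ha : ‖a‖ = 1) (hx : ‖x‖ = 1) (hxa : x ≠ -a) :
    Tendsto (fun μ : ℝ => Tm J a μ x) (𝓝 0) (𝓝 (Tm J a 0 x)) := by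
  have hne := p8_ne ha hx hxa
  have hD := (p8_Dm a x).continuousAt (x := (0 : ℝ))
  have h1 : ContinuousAt (fun μ : ℝ => dW J a μ x) 0 := by
    have e1 : ContinuousAt (fun μ : ℝ => (Dm a μ x ^ 2)⁻¹ * (1 - μ ^ 2)) 0 :=
      ((hD.pow 2).inv₀ (pow_ne_zero 2 hne)).mul (by fun_prop)
    have e2 : ContinuousAt (fun μ : ℝ => (innerSL ℝ a).smulRight (Nm J a μ x)) 0 :=
      (p8_smulRight continuous_const (p8_Nm J a x)).continuousAt
    exact ((hD.inv₀ hne).smul (p8_dN J a x).continuousAt).sub (e1.smul e2)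
  have h2 : ContinuousAt (fun μ : ℝ => Tm J a μ x) 0 := by
    unfold Tm
    exact continuousAt_const.clm_comp (h1.clm_comp continuousAt_const)
  exact h2

end Pool.Agent.Helper19.PU
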